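import Pool.Agent.W533.LP.Stm2

/-!
# Last passage percolation: rotation, rows, exits, crossing, chains

Deterministic facts about the last passage recursion of `Pool.Agent.W533.LP.Defs`.
-/

namespace Pool.Agent.W370.LP

open Pool.Agent.W533.LP

variable (W : ℕ → ℕ → ℕ)

theorem G_zero_right (I J : ℕ → ℕ) (i : ℕ) : G I J W i 0 = ps I i := by
  induction i with
  | zero => simp [G, ps]
  | succ i ih => rw [G, ih, ps, ps, Finset.sum_range_succ]

theorem G_zero_left (I J : ℕ → ℕ) (j : ℕ) : G I J W 0 j = ps J j := by
  induction j with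
  | zero => simp [G, ps]
  | succ j ih => rw [G, ih, ps, ps, Finset.sum_range_succ]

theorem ps_zero (i : ℕ) : ps zero i = 0 := by simp [ps, zero]

theorem ps_mono (I : ℕ → ℕ) {i j : ℕ} (h : i ≤ j) : ps I i ≤ ps I j := by
  unfold ps
  exact Finset.sum_le_sum_of_subset (Finset.range_mono h)

theorem T_right (i : ℕ) : T W i 0 = 0 := by
  rw [T, G_zero_right, ps_zero]

theorem T_left (j : ℕ) : T W 0 j = 0 := by
  rw [T, G_zero_left, ps_zero]

theorem T_succ (i j : ℕ) : T W (i + 1) (j + 1) = max (T W i (j + 1)) (T W (i + 1) j) + W i j := by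
  simp only [T, G]

theorem T_mono_right (i j : ℕ) : T W i j ≤ T W i (j + 1) := by
  cases i with
  | zero => rw [T_left]; exact Nat.zero_le _
  | succ i => rw [T_succ]; omega

theorem T_mono_left (i j : ℕ) : T W i j ≤ T W (i + 1) j := by
  cases j with
  | zero => rw [T_right]; exact Nat.zero_le _
  | succ j => rw [T_succ]; omega

theorem T_mono_left' {i i' : ℕ} (h : i ≤ i') (j : ℕ) : T W i j ≤ T W i' j :=
  monotone_nat_of_le_succ (f := fun i => T W i j) (fun i => T_mono_left W i j) h

/-- `T` only depends on the weights in the box. -/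
theorem T_congr (W W' : ℕ → ℕ → ℕ) (m n : ℕ) (h : ∀ i < m, ∀ j < n, W i j = W' i j) :
    T W m n = T W' m n := by
  induction m generalizing n with
  | zero => rw [T_left, T_left]
  | succ m ihm =>
    induction n with
    | zero => rw [T_right, T_right]
    | succ n ihn =>
      rw [T_succ, T_succ, ihm (n + 1) (fun i hi j hj => h i (by omega) j hj),
        ihn (fun i hi j hj => h i hi j (by omega)), h m (by omega) n (by omega)]

/-- Recursion from the first site. -/
theorem T_first (m n : ℕ) :
    T W (m + 1) (n + 1) = W 0 0 + max (T (sh 1 0 W) m (n + 1)) (T (sh 0 1 W) (m + 1) n) := by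
  induction m generalizing n with
  | zero =>
    induction n with
    | zero => simp [T_succ, T_left, T_right]
    | succ n ihn =>
      rw [T_succ, ihn, T_succ (sh 0 1 W), T_left, T_left, T_left, T_left]
      simp only [sh]
      have : W 0 (n + 1) = W (0 + 0) (n + 1) := rfl
      omega
  | succ m ihm =>
    induction n with
    | zero =>
      rw [T_succ, ihm 0, T_succ (sh 1 0 W), T_right, T_right, T_right, T_right]
      simp only [sh]
      have : W (m + 1) 0 = W (m + 1) (0 + 0) := rfl
      omega
    | succ n ihn =>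
      rw [T_succ, ihn, ihm (n + 1), T_succ (sh 1 0 W) m (n + 1), T_succ (sh 0 1 W) (m + 1) n]
      simp only [sh, Nat.add_zero]
      omega

theorem T_rot (m n : ℕ) : T (rot m n W) m n = T W m n := by
  induction m generalizing n W with
  | zero => rw [T_left, T_left]
  | succ m ihm =>
    induction n generalizing W with
    | zero => rw [T_right, T_right]
    | succ n ihn =>
      rw [T_succ (rot (m + 1) (n + 1) W), T_first W]
      have h1 : T (rot (m + 1) (n + 1) W) m (n + 1) = T (sh 1 0 W) m (n + 1) := by
        rw [← ihm (sh 1 0 W) (n + 1)]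
        apply T_congr
        intro i hi j hj
        unfold rot sh
        rw [if_pos ⟨by omega, hj⟩, if_pos ⟨hi, hj⟩]
        congr 1
        omega
      have h2 : T (rot (m + 1) (n + 1) W) (m + 1) n = T (sh 0 1 W) (m + 1) n := by
        rw [← ihn (sh 0 1 W)]
        apply T_congr
        intro i hi j hj
        unfold rot sh
        rw [if_pos ⟨hi, by omega⟩, if_pos ⟨hi, hj⟩]
        have : n + 1 - 1 - j = n - 1 - j + 1 := by omega
        rw [this]
        rfl
      have h3 : rot (m + 1) (n + 1) W m n = W 0 0 := by
        unfold rot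
        rw [if_pos ⟨by omega, by omega⟩]
        congr 1 <;> omega
      rw [h1, h2, h3]
      omega

theorem dRot : DRot := by
  intro W m n x y hx hy
  rw [← T_rot (sh x y W) (m - x) (n - y)]
  apply T_congr
  intro i hi j hj
  unfold rot sh
  rw [if_pos ⟨by omega, by omega⟩, if_pos ⟨hi, hj⟩]
  congr 1 <;> omega

theorem row_aux (M H m : ℕ) :
    (∀ z < m, T W (z + 1) M + T (sh z M W) (m - z) H ≤ T W m (M + H)) ∧
    (1 ≤ m → ∃ z < m, T W m (M + H) = T W (z + 1) M + T (sh z M W) (m - z) H) := by
  induction H generalizing m with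
  | zero =>
    refine ⟨fun z hz => ?_, fun hm => ⟨m - 1, by omega, ?_⟩⟩
    · rw [T_right, Nat.add_zero, Nat.add_zero]
      exact T_mono_left' W (by omega) M
    · rw [T_right, Nat.add_zero, Nat.add_zero]
      congr 1
      omega
  | succ H ihH =>
    induction m with
    | zero => exact ⟨fun z hz => by omega, fun h => by omega⟩
    | succ m ihm =>
      have key : ∀ z < m + 1, T W (z + 1) M + T (sh z M W) (m + 1 - z) (H + 1) =
          T W (z + 1) M + max (T (sh z M W) (m - z) (H + 1)) (T (sh z M W) (m + 1 - z) H)
            + W m (M + H) := by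
        intro z hz
        have e : m + 1 - z = (m - z) + 1 := by omega
        rw [e, T_succ]
        have e2 : sh z M W (m - z) H = W m (M + H) := by
          unfold sh
          rw [Nat.sub_add_cancel (by omega), Nat.add_comm H M]
        rw [e2]
        omega
      have first : ∀ z < m + 1, T W (z + 1) M + T (sh z M W) (m + 1 - z) (H + 1)
          ≤ T W (m + 1) (M + (H + 1)) := by
        intro z hz
        rw [key z hz, ← Nat.add_assoc M H 1, T_succ W m (M + H)]
        have h2 := (ihH (m + 1)).1 z hz
        by_cases hzm : z < m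
        · have h1 := ihm.1 z hzm
          rw [← Nat.add_assoc M H 1] at h1
          omega
        · have : z = m := by omega
          subst this
          rw [Nat.sub_self, T_left]
          omega
      refine ⟨first, fun _ => ?_⟩
      rcases Nat.lt_or_ge (T W (m + 1) (M + H)) (T W m (M + H + 1)) with hlt | hge
      · have hm : 1 ≤ m := by
          by_contra hcon
          have : m = 0 := by omega
          subst this
          rw [T_left] at hlt
          omega
        obtain ⟨z, hz, hzeq⟩ := ihm.2 hm
        refine ⟨z, by omega, le_antisymm ?_ (first z (by omega))⟩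
        rw [key z (by omega), ← Nat.add_assoc M H 1, T_succ W m (M + H)]
        rw [← Nat.add_assoc M H 1] at hzeq
        omega
      · obtain ⟨z, hz, hzeq⟩ := (ihH (m + 1)).2 (by omega)
        refine ⟨z, hz, le_antisymm ?_ (first z hz)⟩
        rw [key z hz, ← Nat.add_assoc M H 1, T_succ W m (M + H)]
        omega

theorem dRow : DRow := by
  intro W m M H hm _ _
  exact ⟨(row_aux W M H m).1, (row_aux W M H m).2 hm⟩

theorem exit_first (I J : ℕ → ℕ) (z i j : ℕ) :
    ps I (z + 1) + T (sh z 0 W) (i + 1) j ≤ G I J W (z + (i + 1)) j := by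
  induction j generalizing i with
  | zero =>
    rw [T_right, G_zero_right, Nat.add_zero]
    exact ps_mono I (by omega)
  | succ j ihj =>
    induction i with
    | zero =>
      rw [T_succ, T_left]
      have h := ihj 0
      rw [Nat.zero_add] at h ⊢
      rw [G]
      have e : sh z 0 W 0 j = W z j := by
        unfold sh
        rw [Nat.zero_add, Nat.add_zero j]
      rw [e]
      omega
    | succ i ihi =>
      rw [T_succ]
      have h := ihj (i + 1)
      rw [← Nat.add_assoc z (i + 1) 1, G]
      have e : sh z 0 W (i + 1) j = W (z + (i + 1)) j := by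
        unfold sh
        rw [Nat.add_comm (i + 1) z, Nat.add_zero j]
      rw [e]
      rw [← Nat.add_assoc z (i + 1) 1] at h
      omega

theorem ps_cut (I : ℕ → ℕ) (w m : ℕ) : ps (cut I w) m = ps I (min m w) := by
  induction m with
  | zero => simp [ps]
  | succ m ih =>
    have : ps (cut I w) (m + 1) = ps (cut I w) m + cut I w m := by
      unfold ps
      rw [Finset.sum_range_succ]
    rw [this, ih]
    unfold cut
    by_cases h : m < w
    · rw [if_pos h, Nat.min_eq_left (by omega), Nat.min_eq_left (by omega)]
      unfold ps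
      rw [Finset.sum_range_succ]
    · rw [if_neg h, Nat.min_eq_right (by omega), Nat.min_eq_right (by omega)]
      rfl

theorem exit_second (I : ℕ → ℕ) (w : ℕ) (hw : 1 ≤ w) (n m : ℕ) :
    ∃ z < m + 1, z < w ∧
      G (cut I w) zero W (m + 1) n ≤ ps I (z + 1) + T (sh z 0 W) (m + 1 - z) n := by
  induction n generalizing m with
  | zero =>
    refine ⟨min (m + 1) w - 1, by omega, by omega, ?_⟩
    rw [G_zero_right, T_right, ps_cut, Nat.add_zero]
    exact ps_mono I (by omega)
  | succ n ihn =>
    have step : ∀ m z, z < m + 1 → T (sh z 0 W) (m + 1 - z) (n + 1) =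
        max (T (sh z 0 W) (m - z) (n + 1)) (T (sh z 0 W) (m + 1 - z) n) + W m n := by
      intro m z hz
      have e : m + 1 - z = (m - z) + 1 := by omega
      rw [e, T_succ]
      have e2 : sh z 0 W (m - z) n = W m n := by
        unfold sh
        rw [Nat.sub_add_cancel (by omega), Nat.add_zero]
      rw [e2]
    induction m with
    | zero =>
      obtain ⟨z, hz, hzw, h⟩ := ihn 0
      refine ⟨z, hz, hzw, ?_⟩
      rw [step 0 z hz, G, G_zero_left, ps_zero]
      omega
    | succ m ihm =>
      rcases Nat.lt_or_ge (G (cut I w) zero W (m + 1 + 1) n) (G (cut I w) zero W (m + 1) (n + 1))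
        with hlt | hge
      · obtain ⟨z, hz, hzw, h⟩ := ihm
        refine ⟨z, by omega, hzw, ?_⟩
        rw [step (m + 1) z (by omega), G]
        omega
      · obtain ⟨z, hz, hzw, h⟩ := ihn (m + 1)
        refine ⟨z, hz, hzw, ?_⟩
        rw [step (m + 1) z hz, G]
        omega

theorem dExit : DExit := by
  intro I J W m n _
  refine ⟨fun z hz => ?_, fun w hw hm => ?_⟩
  · have h := exit_first W I J z (m - z - 1) n
    have e1 : m - z - 1 + 1 = m - z := by omega
    have e2 : z + (m - z) = m := by omega
    rw [e1, e2] at h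
    exact h
  · obtain ⟨k, rfl⟩ : ∃ k, m = k + 1 := ⟨m - 1, by omega⟩
    exact exit_second W I w hw n k

theorem ps_diff (f : ℕ → ℕ) (h0 : f 0 = 0) (hf : ∀ j, f j ≤ f (j + 1)) (j : ℕ) :
    ps (fun j => f (j + 1) - f j) j = f j := by
  induction j with
  | zero => simp [ps, h0]
  | succ j ih =>
    have : ps (fun j => f (j + 1) - f j) (j + 1) = ps (fun j => f (j + 1) - f j) j
        + (f (j + 1) - f j) := by
      unfold ps
      rw [Finset.sum_range_succ]
    rw [this, ih]
    have := hf j
    omega

theorem T_eq_G (x i j : ℕ) :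
    G zero (fun j => T W x (j + 1) - T W x j) (sh x 0 W) i j = T W (x + i) j := by
  induction j generalizing i with
  | zero => rw [G_zero_right, ps_zero, T_right]
  | succ j ihj =>
    induction i with
    | zero =>
      rw [G_zero_left, ps_diff (fun j => T W x j) (T_right W x) (fun j => T_mono_right W x j)]
      rfl
    | succ i ihi =>
      rw [G, ihi, ihj (i + 1), ← Nat.add_assoc x i 1, T_succ]
      have e : sh x 0 W i j = W (x + i) j := by
        unfold sh
        rw [Nat.add_comm i x, Nat.add_zero]
      rw [e]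

theorem dCross (h : DAttr) : DCross := by
  intro W x a s n
  have h1 := (h zero zero (fun j => T W x (j + 1) - T W x j) zero (sh x 0 W)
    (fun _ => le_rfl) (fun _ => Nat.zero_le _) a n s).1
  rw [T_eq_G, T_eq_G, ← Nat.add_assoc x a s] at h1
  change _ + T (sh x 0 W) a n ≤ T (sh x 0 W) (a + s) n + _ at h1
  omega

theorem chain_le (m k : ℕ) (S : Finset (ℕ × ℕ)) (hS : ∀ v ∈ S, v.1 < m ∧ v.2 < k)
    (hc : IsChain (· ≤ ·) (S : Set (ℕ × ℕ))) : ∑ v ∈ S, W v.1 v.2 ≤ T W m k := by
  induction m generalizing k S with
  | zero =>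
    have : S = ∅ := Finset.eq_empty_of_forall_notMem (fun v hv => by
      have := (hS v hv).1
      omega)
    subst this
    simp
  | succ m ihm =>
    induction k generalizing S with
    | zero =>
      have : S = ∅ := Finset.eq_empty_of_forall_notMem (fun v hv => by
        have := (hS v hv).2
        omega)
      subst this
      simp
    | succ k ihk =>
      have hc' : IsChain (· ≤ ·) ((S.erase (m, k) : Finset (ℕ × ℕ)) : Set (ℕ × ℕ)) :=
        hc.mono (by
          intro v hv
          exact Finset.mem_of_mem_erase hv)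
      have hsum : ∑ v ∈ S, W v.1 v.2 ≤ ∑ v ∈ S.erase (m, k), W v.1 v.2 + W m k := by
        by_cases hmem : (m, k) ∈ S
        · rw [← Finset.sum_erase_add S (fun v => W v.1 v.2) hmem]
        · rw [Finset.erase_eq_of_notMem hmem]
          omega
      rw [T_succ]
      by_cases hcase : ∀ v ∈ S.erase (m, k), v.1 < m
      · have := ihm (k + 1) (S.erase (m, k))
          (fun v hv => ⟨hcase v hv, (hS v (Finset.mem_of_mem_erase hv)).2⟩) hc'
        omega
      · push Not at hcase
        obtain ⟨u, hu, hum⟩ := hcase
        have hall : ∀ v ∈ S.erase (m, k), v.2 < k := by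
          intro v hv
          by_contra hcon
          have hv2 := (hS v (Finset.mem_of_mem_erase hv)).2
          have hv1 := (hS v (Finset.mem_of_mem_erase hv)).1
          have hu1 := (hS u (Finset.mem_of_mem_erase hu)).1
          have hu2 := (hS u (Finset.mem_of_mem_erase hu)).2
          have hvne := Finset.ne_of_mem_erase hv
          have hune := Finset.ne_of_mem_erase hu
          have hv2' : v.2 = k := by omega
          have hu1' : u.1 = m := by omega
          have hv1' : v.1 < m := by
            rcases Nat.lt_or_ge v.1 m with h | h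
            · exact h
            · exact absurd (Prod.ext (by omega) hv2') hvne
          have hu2' : u.2 < k := by
            rcases Nat.lt_or_ge u.2 k with h | h
            · exact h
            · exact absurd (Prod.ext hu1' (by omega)) hune
          have huv : u ≠ v := by
            intro h
            rw [h] at hu1'
            omega
          rcases hc' (Finset.mem_coe.2 hu) (Finset.mem_coe.2 hv) huv with h | h
          · have := h.1
            omega
          · have := h.2
            omega
        have := ihk (S.erase (m, k))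
          (fun v hv => ⟨(hS v (Finset.mem_of_mem_erase hv)).1, hall v hv⟩) hc'
        omega

theorem chain_att (m k : ℕ) : ∃ S : Finset (ℕ × ℕ), (∀ v ∈ S, v.1 < m ∧ v.2 < k) ∧
    IsChain (· ≤ ·) (S : Set (ℕ × ℕ)) ∧ ∑ v ∈ S, W v.1 v.2 = T W m k := by
  induction m generalizing k with
  | zero => exact ⟨∅, by simp, by simp, by simp [T_left]⟩
  | succ m ihm =>
    induction k with
    | zero => exact ⟨∅, by simp, by simp, by simp [T_right]⟩
    | succ k ihk =>
      have ins : ∀ S : Finset (ℕ × ℕ), (∀ v ∈ S, v.1 < m + 1 ∧ v.2 < k + 1) →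
          (m, k) ∉ S → IsChain (· ≤ ·) (S : Set (ℕ × ℕ)) →
          ∃ S' : Finset (ℕ × ℕ), (∀ v ∈ S', v.1 < m + 1 ∧ v.2 < k + 1) ∧
            IsChain (· ≤ ·) (S' : Set (ℕ × ℕ)) ∧
            ∑ v ∈ S', W v.1 v.2 = ∑ v ∈ S, W v.1 v.2 + W m k := by
        intro S h1 h2 h3
        refine ⟨insert (m, k) S, ?_, ?_, ?_⟩
        · intro v hv
          rcases Finset.mem_insert.1 hv with rfl | hv
          · exact ⟨by simp, by simp⟩
          · exact h1 v hv
        · rw [Finset.coe_insert]
          refine h3.insert (fun b hb _ => Or.inr ?_)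
          have := h1 b (Finset.mem_coe.1 hb)
          exact ⟨by
            change b.1 ≤ m
            omega, by
            change b.2 ≤ k
            omega⟩
        · rw [Finset.sum_insert h2]
          exact Nat.add_comm _ _
      rw [T_succ]
      rcases Nat.lt_or_ge (T W (m + 1) k) (T W m (k + 1)) with hlt | hge
      · obtain ⟨S, h1, h2, h3⟩ := ihm (k + 1)
        obtain ⟨S', g1, g2, g3⟩ := ins S (fun v hv => ⟨by
          have := (h1 v hv).1
          omega, (h1 v hv).2⟩) (fun hmem => by
          have : m < m := (h1 _ hmem).1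
          omega) h2
        exact ⟨S', g1, g2, by omega⟩
      · obtain ⟨S, h1, h2, h3⟩ := ihk
        obtain ⟨S', g1, g2, g3⟩ := ins S (fun v hv => ⟨(h1 v hv).1, by
          have := (h1 v hv).2
          omega⟩) (fun hmem => by
          have : k < k := (h1 _ hmem).2
          omega) h2
        exact ⟨S', g1, g2, by omega⟩

theorem dChain : DChain := by
  intro n W
  classical
  apply le_antisymm
  · obtain ⟨S, h1, h2, h3⟩ := chain_att (ex W) n n
    have hle : ∑ v ∈ Finset.univ.filter (fun v : V n => ((v.1 : ℕ), (v.2 : ℕ)) ∈ S), W v ≤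
        (Finset.univ.filter (fun S : Finset (V n) =>
          IsChain (· ≤ ·) (S : Set (V n)))).sup (fun S => ∑ v ∈ S, W v) := by
      apply Finset.le_sup (f := fun S : Finset (V n) => ∑ v ∈ S, W v)
      rw [Finset.mem_filter]
      refine ⟨Finset.mem_univ _, ?_⟩
      intro u hu v hv huv
      have hu' : ((u.1 : ℕ), (u.2 : ℕ)) ∈ S := (Finset.mem_filter.1 (Finset.mem_coe.1 hu)).2
      have hv' : ((v.1 : ℕ), (v.2 : ℕ)) ∈ S := (Finset.mem_filter.1 (Finset.mem_coe.1 hv)).2
      have hne : ((u.1 : ℕ), (u.2 : ℕ)) ≠ ((v.1 : ℕ), (v.2 : ℕ)) := by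
        intro h
        apply huv
        have h1 := congrArg Prod.fst h
        have h2 := congrArg Prod.snd h
        exact Prod.ext (Fin.ext h1) (Fin.ext h2)
      rcases h2 (Finset.mem_coe.2 hu') (Finset.mem_coe.2 hv') hne with h | h
      · exact Or.inl ⟨h.1, h.2⟩
      · exact Or.inr ⟨h.1, h.2⟩
    refine le_trans (le_of_eq ?_) hle
    rw [Tc, ← h3]
    symm
    refine Finset.sum_bij (fun (v : V n) _ => ((v.1 : ℕ), (v.2 : ℕ))) ?_ ?_ ?_ ?_
    · intro v hv
      exact (Finset.mem_filter.1 hv).2
    · intro u _ v _ h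
      have h1 := congrArg Prod.fst h
      have h2 := congrArg Prod.snd h
      exact Prod.ext (Fin.ext h1) (Fin.ext h2)
    · intro b hb
      refine ⟨(⟨b.1, (h1 b hb).1⟩, ⟨b.2, (h1 b hb).2⟩), ?_, rfl⟩
      rw [Finset.mem_filter]
      exact ⟨Finset.mem_univ _, hb⟩
    · intro v _
      unfold ex
      rw [dif_pos ⟨v.1.2, v.2.2⟩]
  · apply Finset.sup_le
    intro S hS
    have hc := (Finset.mem_filter.1 hS).2
    let e : V n ↪ ℕ × ℕ := ⟨fun v => ((v.1 : ℕ), (v.2 : ℕ)), by
      intro u v h
      have h1 := congrArg Prod.fst h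
      have h2 := congrArg Prod.snd h
      exact Prod.ext (Fin.ext h1) (Fin.ext h2)⟩
    have h := chain_le (ex W) n n (S.map e) (by
      intro v hv
      rw [Finset.mem_map] at hv
      obtain ⟨u, _, rfl⟩ := hv
      exact ⟨u.1.2, u.2.2⟩) (by
      intro u hu v hv huv
      rw [Finset.mem_coe, Finset.mem_map] at hu hv
      obtain ⟨a, ha, rfl⟩ := hu
      obtain ⟨b, hb, rfl⟩ := hv
      have hab : a ≠ b := fun h => huv (by rw [h])
      rcases hc (Finset.mem_coe.2 ha) (Finset.mem_coe.2 hb) hab with h | h
      · exact Or.inl ⟨h.1, h.2⟩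
      · exact Or.inr ⟨h.1, h.2⟩)
    rw [Finset.sum_map] at h
    refine le_trans (le_of_eq ?_) h
    apply Finset.sum_congr rfl
    intro v _
    change W v = ex W (v.1 : ℕ) (v.2 : ℕ)
    unfold ex
    rw [dif_pos ⟨v.1.2, v.2.2⟩]

end Pool.Agent.W370.LP
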